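import Pool.Agent.PQP.StmtsE

/-!
# Squad PQP, row TA3: second order Taylor formula at a nondegenerate critical point
-/

set_option autoImplicit false

open scoped InnerProductSpace Topology ContDiff Manifold
open MeasureTheory Filter Set

noncomputable section

namespace Pool.Agent.PQP.H51

open Pool.Agent.Helper42_Paneitz Pool.Agent.Helper82_Vir Pool.Agent.FLX

/-- the operator of a bilinear form of `ℝ⁵` -/
def opOf (B : E5 →L[ℝ] E5 →L[ℝ] ℝ) : E5 →L[ℝ] E5 :=
  ∑ i : Fin 5, (ContinuousLinearMap.smulRight (B.flip (ee i)) (ee i))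

theorem opOf_apply (B : E5 →L[ℝ] E5 →L[ℝ] ℝ) (u : E5) :
    opOf B u = ∑ i : Fin 5, B u (ee i) • ee i := by
  unfold opOf
  rw [ContinuousLinearMap.sum_apply]
  rfl

theorem sum_coord (v : E5) : ∑ i : Fin 5, (v i) • ee i = v := by
  have h := (EuclideanSpace.basisFun (Fin 5) ℝ).sum_repr v
  simpa using h

theorem inner_ee (v : E5) (i : Fin 5) : ⟪ee i, v⟫_ℝ = v i := by
  have h := (EuclideanSpace.basisFun (Fin 5) ℝ).repr_apply_apply v i
  simpa using h.symm

theorem opOf_inner (B : E5 →L[ℝ] E5 →L[ℝ] ℝ) (u v : E5) : ⟪opOf B u, v⟫_ℝ = B u v := by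
  rw [opOf_apply, sum_inner]
  have h : B u v = B u (∑ i : Fin 5, (v i) • ee i) := by rw [sum_coord]
  rw [h, map_sum]
  refine Finset.sum_congr rfl fun i _ => ?_
  rw [inner_smul_left, inner_ee, map_smul, smul_eq_mul, mul_comm]
  rfl

theorem ta3 (hT : TawStmt) (hH : HswStmt) : Ta3Stmt := by
  intro f p hf hnd
  obtain ⟨C, hC, hC'⟩ := hT f hf
  obtain ⟨hrad, htr⟩ := hH f p hf
  set B : E5 →L[ℝ] E5 →L[ℝ] ℝ := fderiv ℝ (fderiv ℝ (radialExt f)) (p : E5) with hB
  have hBh : ∀ u v : E5, B u v = hess f p u v := fun u v => rfl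
  have hsym : ∀ u v : E5, B u v = B v u := fun u v => hess_symm hf p u v
  have hp0 : ∀ v : E5, B (p : E5) v = 0 := by
    intro v
    rw [hBh, hrad v, hnd.1 v, neg_zero]
  have hp0' : ∀ v : E5, B v (p : E5) = 0 := fun v => by rw [hsym, hp0]
  have hTp : opOf B (p : E5) = 0 := by
    rw [opOf_apply]
    refine Finset.sum_eq_zero fun i _ => ?_
    rw [hp0, zero_smul]
  refine ⟨opOf B, C, hC, ?_, hTp, ?_, ?_, ?_⟩
  · intro u v
    rw [opOf_inner, real_inner_comm, opOf_inner, hsym]
  · intro v hv h0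
    refine hnd.2 v hv fun w _ => ?_
    rw [← hBh, ← opOf_inner, h0, inner_zero_left]
  · rw [← htr]
    unfold tr5
    refine Finset.sum_congr rfl fun i _ => ?_
    rw [opOf_inner, hBh]
  · intro z
    have h := hC' p z
    have h1 : ⟪opOf B (z : E5), (z : E5)⟫_ℝ =
        hess f p ((z : E5) - (p : E5)) ((z : E5) - (p : E5)) := by
      rw [opOf_inner, ← hBh]
      have e1 : B ((z : E5) - (p : E5)) ((z : E5) - (p : E5)) =
          B (z : E5) (z : E5) - B (z : E5) (p : E5) - (B (p : E5) (z : E5) - B (p : E5) (p : E5)) := by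
        simp only [map_sub, _root_.sub_apply]
        ring
      rw [e1, hp0, hp0, hp0']
      ring
    rw [h1]
    rw [hnd.1, sub_zero] at h
    exact h

end Pool.Agent.PQP.H51
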